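import Pool.Agent.H234.Cov.Main

set_option autoImplicit false

/-!
# MP_eba1ef_gt: Hadwiger's covering problem and the asymmetry of the body

Let `d ≥ 3`, let `A` be a convex body in `ℝ^d` and `B` a nonempty compact convex set (for example
`B = {0}`, so `A + B = A`). Then `A + B` is covered by at most

`2^d d (16 + 2 log (1 + log Λ))`

translates of its interior, where `Λ ≥ 1` may be

1. `vol (A - L) / (2^d vol L)`, for every convex body `L ⊆ A`;
2. `vol A / vol (A ∩ (2c - A))`, for every point `c` in the interior of `A`;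

and, if `-(A - c) ⊆ (1 + η) (A - c)` for some point `c` (the Minkowski asymmetry is at most
`1 + η`), by at most `2^d d (16 + 2 log (1 + d η))` translates.

So the bound is linear, `O(d 2^d)`, not only for centrally symmetric bodies but for all bodies with
asymmetry `1 + O(1/d)`; it is `O(d log log d 2^d)` if the largest symmetric part of the body has at
least the share `exp (- (log d)^C)` of the volume; and since this share is always at least `2^(-d)`
(Kövner, Besicovitch; the best point `c`) it is `O(d log d 2^d)` for all convex bodies.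

Proof. Choose the origin such that `vol K vol K° ≤ 2^d V`, `V` the Santalo bound, `K = A - c`. For
`p` in `K` let `M(p)` be the set of all `a` with `p + a, p - a ∈ K`, and let `F` be a maximal set of
points `p = (1 - ζ) x`, `ζ = 1/(40 d)`, `x` in the boundary, for which the sets `p + (1/3) M(p)` are
disjoint. If for each `p ∈ F` there is a `t ∈ T` with `p ∈ t + (1 - κ) K`, `κ > 2ζ`, then the
vectors `t` illuminate `K`, hence `A + B`; and `∑ vol K / vol M(p) ≤ (C d)^d`, the sum over `p ∈ F`.
Let `r(p)^d = vol M(p) / vol L`, `2^d Λ = vol (A - L) / vol L`, and `(1 + r₀)^(d/2) = e^4 Λ`.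

* The points with `r(p) ≥ r₀` are covered by `0.23 d 2^d` random translates: `t` is chosen in a
translate of `((1 + κ)/2) (K - L)`, and by the inequality of Brunn and Minkowski `p` is covered
with probability at least `c 2^(-d) (1 + r(p))^d / Λ ≥ c e^4 2^(-d) (1 + d r(p) / 2)`.
* There are at most `(C d r₀)^d` points with `r(p) < r₀`, and `d r₀` is about `2 (4 + log Λ)`. They
are covered by the greedy algorithm: each finite subset of `K` has at least the part
`((1 - κ)/(2 - κ))^d` of its points in one translate of `(1 - κ) K` (Cauchy-Schwarz).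

This is the argument if `log d + log log d ≥ 20 + 4 log (1 + log Λ)`; otherwise the theorem follows
from the bound `2^d (d log d / 2 + d log log d / 2 + 6 d)` for all convex bodies.
-/

open MeasureTheory Module Set Real
open scoped Pointwise

namespace Pool.Agent.H234.Old.DoubleLogAsymmetry

/-- `K` is covered by at most `N` translates of its interior. -/
def CoveredBy {d : ℕ} (K : Set (EuclideanSpace ℝ (Fin d))) (N : ℝ) : Prop :=
  ∃ T : Finset (EuclideanSpace ℝ (Fin d)),
    (T.card : ℝ) ≤ N ∧ K ⊆ ⋃ t ∈ T, (fun x => t + x) '' interior K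

/-- **Main theorem.** -/
theorem doubleLogAsymmetry (d : ℕ) (hd : 3 ≤ d) (A B : Set (EuclideanSpace ℝ (Fin d))) (hA : Convex ℝ A)
    (hAc : IsCompact A) (hAi : (interior A).Nonempty) (hB : Convex ℝ B) (hBc : IsCompact B)
    (hBn : B.Nonempty) :
    (∀ L ⊆ A, Convex ℝ L → IsCompact L → (interior L).Nonempty →
      CoveredBy (A + B) (2 ^ d * d *
        (16 + 2 * log (1 + log (volume.real (A - L) / (2 ^ d * volume.real L)))))) ∧
    (∀ c ∈ interior A,
      CoveredBy (A + B) (2 ^ d * d *
        (16 + 2 * log (1 + log (volume.real A /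
          volume.real (A ∩ {x | (2 : ℝ) • c - x ∈ A})))))) ∧
    (∀ c, ∀ η : ℝ, 0 ≤ η → (∀ x ∈ A, c - (1 / (1 + η)) • (x - c) ∈ A) →
      CoveredBy (A + B) (2 ^ d * d * (16 + 2 * log (1 + d * η)))) := by
  have hA0 : 0 < volume.real A := Pool.Agent.K3h52.TP.real_pos' volume hAc hAi
  refine ⟨?_, ?_, ?_⟩
  · intro L hLA hL hLc hLi
    have hL0 : 0 < volume.real L := Pool.Agent.K3h52.TP.real_pos' volume hLc hLi
    have h2 := Pool.Agent.H234.Cov.vol_sub_ge d A L hAc hLc hLA
    have h3 : 0 < 2 ^ d * volume.real L := by positivity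
    obtain ⟨T, hT, hcard⟩ := Pool.Agent.H234.Cov.main d hd A B L hA hAc hB hBc hBn hL hLc hLi hLA
      (volume.real (A - L) / (2 ^ d * volume.real L)) (by rwa [le_div_iff₀ h3, one_mul])
      (le_of_eq (by field_simp))
    exact ⟨T, hcard, hT⟩
  · intro c hc
    have hRclosed : IsClosed {x : EuclideanSpace ℝ (Fin d) | (2 : ℝ) • c - x ∈ A} :=
      hAc.isClosed.preimage (f := fun x => (2 : ℝ) • c - x) (by fun_prop)
    have hopen : IsOpen ((fun x => (2 : ℝ) • c - x) ⁻¹' interior A) :=
      isOpen_interior.preimage (by fun_prop)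
    have hint : (interior (A ∩ {x | (2 : ℝ) • c - x ∈ A})).Nonempty := by
      refine ⟨c, interior_maximal
        (t := interior A ∩ (fun x => (2 : ℝ) • c - x) ⁻¹' interior A) ?_
        (isOpen_interior.inter hopen) ⟨hc, ?_⟩⟩
      · rintro x ⟨h1, h2⟩
        exact ⟨interior_subset h1, interior_subset (s := A) h2⟩
      · show (2 : ℝ) • c - c ∈ interior A
        rw [two_smul, add_sub_cancel_right]
        exact hc
    have hL0 : 0 < volume.real (A ∩ {x | (2 : ℝ) • c - x ∈ A}) :=
      Pool.Agent.K3h52.TP.real_pos' volume (hAc.inter_right hRclosed) hint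
    obtain ⟨T, hT, hcard⟩ := Pool.Agent.H234.Cov.main_symm d hd A B hA hAc hB hBc hBn c hL0
      (volume.real A / volume.real (A ∩ {x | (2 : ℝ) • c - x ∈ A}))
      (le_of_eq (div_mul_cancel₀ _ hL0.ne').symm)
    exact ⟨T, hcard, hT⟩
  · intro c η hη h
    obtain ⟨T, hT, hcard⟩ := Pool.Agent.H234.Cov.main_asym d hd A B hA hAc hAi hB hBc hBn c η hη h
    exact ⟨T, hcard, hT⟩

end Pool.Agent.H234.Old.DoubleLogAsymmetry
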